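import Pool.Agent.H.MP_b23ae3_co.asy.Final

set_option autoImplicit false

namespace Pool.Agent.Results.MP_b23ae3_co.CopNumberAsymptotic

open Pool.Agent.H.MP_b23ae3_co

/-- The cop number of the `m`-dimensional hypercube against a robber of unbounded speed is
asymptotic to `2 ^ m / m` as `m` tends to infinity. -/
theorem result :
    Filter.Tendsto (fun m : ℕ => (copNumber (hypercube m) : ℝ) * m / 2 ^ m) Filter.atTop
      (nhds 1) :=
  Asy.asymptotic

end Pool.Agent.Results.MP_b23ae3_co.CopNumberAsymptotic
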