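import Pool.Agent.H.MP_b23ae3_co.Seven.Main

set_option autoImplicit false

namespace Pool.Agent.Results.MP_b23ae3_co.SevenCube

open Pool.Agent.H.MP_b23ae3_co

/-- The cop number of the seven-dimensional hypercube against a robber of unbounded speed is
`16 = 2 ^ 7 / (7 + 1)`. -/
theorem result : copNumber (hypercube 7) = 16 :=
  Seven.main

end Pool.Agent.Results.MP_b23ae3_co.SevenCube
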